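import Pool.Agent.H28.N6.Targets

/-!
Row TEA of the board N6 (block D): for a ternary anisotropic form the operator `T` kills the
volumes of the level sets of large values.
-/

set_option autoImplicit false
open MeasureTheory Pool.Agent.H28.N6

namespace Pool.Agent.H35.N6D

section

variable {F : Type} [NontriviallyNormedField F]

theorem qf_smul {ι : Type} [Fintype ι] (h : Matrix ι ι F) (x : F) (y : ι → F) :
    qf h (x • y) = x ^ 2 * qf h y := by
  unfold qf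
  rw [Matrix.mulVec_smul, smul_dotProduct, dotProduct_smul, smul_eq_mul, smul_eq_mul]
  ring

theorem continuous_qf {ι : Type} [Fintype ι] (h : Matrix ι ι F) :
    Continuous (fun y : ι → F => qf h y) := by
  unfold qf
  unfold dotProduct
  refine continuous_finsetSum _ (fun i _ => ?_)
  refine (continuous_apply i).mul ?_
  unfold Matrix.mulVec dotProduct
  exact continuous_finsetSum _ (fun j _ => continuous_const.mul (continuous_apply j))

/-- An anisotropic form is bounded below by the square of the norm. -/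
theorem exists_lower [ProperSpace F] (h : Matrix (Fin 3) (Fin 3) F) (hA : Ani h) :
    ∃ c : ℝ, 0 < c ∧ ∀ y : Fin 3 → F, c * ‖y‖ ^ 2 ≤ ‖qf h y‖ := by
  have hcomp : IsCompact (Metric.sphere (0 : Fin 3 → F) 1) := isCompact_sphere _ _
  have hne : (Metric.sphere (0 : Fin 3 → F) 1).Nonempty := by
    refine ⟨fun _ => 1, ?_⟩
    rw [mem_sphere_zero_iff_norm]
    rw [pi_norm_const]
    exact norm_one
  obtain ⟨y0, hy0, hmin⟩ := hcomp.exists_isMinOn hne
    ((continuous_qf h).norm.continuousOn)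
  have hy0n : ‖y0‖ = 1 := by simpa using hy0
  have hy0ne : y0 ≠ 0 := by
    intro h0
    rw [h0, norm_zero] at hy0n
    exact zero_ne_one hy0n
  refine ⟨‖qf h y0‖, norm_pos_iff.mpr (hA y0 hy0ne), ?_⟩
  intro y
  by_cases hy : y = 0
  · subst hy
    simp
  obtain ⟨i, hi⟩ : ∃ i, ‖y‖ = ‖y i‖ := by
    obtain ⟨i, _, hi⟩ := Finset.exists_mem_eq_sup Finset.univ
      (Finset.univ_nonempty : (Finset.univ : Finset (Fin 3)).Nonempty) (fun i => ‖y i‖₊)
    refine ⟨i, ?_⟩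
    rw [Pi.norm_def, hi]
    rfl
  have hyi : y i ≠ 0 := by
    intro h0
    rw [h0, norm_zero] at hi
    exact hy (norm_eq_zero.mp hi)
  have hmem : (y i)⁻¹ • y ∈ Metric.sphere (0 : Fin 3 → F) 1 := by
    rw [mem_sphere_zero_iff_norm, norm_smul, norm_inv, hi]
    exact inv_mul_cancel₀ (norm_ne_zero_iff.mpr hyi)
  have h1 := hmin hmem
  have h2 : ‖qf h y0‖ ≤ ‖qf h ((y i)⁻¹ • y)‖ := h1
  have h3 : qf h y = (y i) ^ 2 * qf h ((y i)⁻¹ • y) := by
    rw [← qf_smul, smul_smul, mul_inv_cancel₀ hyi, one_smul]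
  rw [h3, norm_mul, norm_pow, ← hi, mul_comm]
  exact mul_le_mul_of_nonneg_left h2 (by positivity)

end

theorem TT_kill (q : ℕ) (hq : 2 ≤ q) (v : ℕ → ℝ) (b : ℝ) (m : ℕ)
    (hv : ∀ n, m ≤ n → v n = b * ((q : ℝ) ^ n)⁻¹) : TT q v m = 0 := by
  unfold TT
  rw [hv m le_rfl, hv (m + 1) (by omega), hv (m + 2) (by omega)]
  have hq0 : (q : ℝ) ≠ 0 := by
    have : q ≠ 0 := by omega
    exact_mod_cast this
  field_simp
  ring

theorem pf_TEA (hSUB : T_SUB) (hBAL : T_BAL) (hNRM : T_NRM) : T_TEA := by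
  intro F _ _ _ _ _ D h2 h hsym hani
  obtain ⟨c, hc, hcle⟩ := exists_lower h hani
  have hp0 : 0 < ‖D.p‖ := norm_pos_iff.mpr D.p0
  have hp1 : ‖D.p‖ < 1 := D.p1
  -- the exponent from which nothing changes
  obtain ⟨J, hJ⟩ : ∃ J : ℕ, ‖D.p‖ ^ J < c := exists_pow_lt_of_lt_one hc hp1
  -- the compact open boxes
  set K : ℕ → Set (Fin 3 → F) := fun j => {y | ∀ i, ‖D.p‖ ^ j * ‖y i‖ ≤ 1} with hK
  set A : Set F := {x | ‖D.p‖ ≤ ‖x‖ ∧ ‖x‖ ≤ 1} with hAdef
  have hKball : ∀ j, K j = Metric.closedBall (0 : Fin 3 → F) ((‖D.p‖ ^ j)⁻¹) := by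
    intro j
    ext y
    rw [mem_closedBall_zero_iff, pi_norm_le_iff_of_nonneg (by positivity)]
    have hpj : 0 < ‖D.p‖ ^ j := pow_pos hp0 _
    constructor
    · intro hy i
      rw [← one_div, le_div_iff₀ hpj, mul_comm]
      exact hy i
    · intro hy i
      have := hy i
      rw [← one_div, le_div_iff₀ hpj, mul_comm] at this
      exact this
  have hKc : ∀ j, IsCompact (K j) := by
    intro j
    rw [hKball]
    exact isCompact_closedBall _ _
  have hKo : ∀ j, IsOpen (K j) := by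
    intro j
    rw [hKball]
    exact IsUltrametricDist.isOpen_closedBall _ (by positivity)
  have hAc : IsCompact A := by
    have : A = Metric.closedBall (0 : F) 1 ∩ {x | ‖D.p‖ ≤ ‖x‖} := by
      ext x
      simp only [hAdef, Set.mem_ofPred_eq, Set.mem_inter_iff, mem_closedBall_zero_iff]
      tauto
    rw [this]
    exact (isCompact_closedBall _ _).inter_right (isClosed_le continuous_const continuous_norm)
  have hSub : ∀ j, ∃ m0 : ℕ, ∀ a ∈ A, ∃ α : ℝ, ∀ m, m0 ≤ m →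
      vol D {z | z ∈ K j ∧ ‖qf h z + a‖ ≤ ‖D.p‖ ^ m} = α * ((D.q : ℝ) ^ m)⁻¹ := by
    intro j
    refine hSUB F D h2 3 h (K j) A hsym (hKc j) (hKo j) hAc ?_
    intro z _ a ha hza hz
    have ha0 : a ≠ 0 := by
      intro h0
      rw [hAdef, Set.mem_ofPred_eq, h0, norm_zero] at ha
      linarith [ha.1]
    apply ha0
    have : qf h z = 0 := by
      unfold qf
      rw [hz, dotProduct_zero]
    rw [this, zero_add] at hza
    exact hza
  choose m0 hm0 using hSub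
  set M : ℕ := ((Finset.range (J + 1)).sup m0) + 2 with hM
  have hMle : ∀ j, j ≤ J → m0 j ≤ M := by
    intro j hj
    have : m0 j ≤ (Finset.range (J + 1)).sup m0 :=
      Finset.le_sup (f := m0) (Finset.mem_range.mpr (by omega))
    omega
  refine ⟨M, ?_⟩
  intro a m ha1 ham
  have ha0 : a ≠ 0 := by
    intro h0
    rw [h0, norm_zero, mul_zero] at ham
    exact absurd ham (not_lt.mpr (by positivity))
  obtain ⟨k, hk⟩ := hNRM F D a ha0
  have hk0 : 0 ≤ k := by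
    by_contra hneg
    push Not at hneg
    have : 1 < ‖D.p‖ ^ k := one_lt_zpow_of_neg₀ hp0 hp1 hneg
    linarith
  obtain ⟨i, rfl⟩ := Int.eq_ofNat_of_zero_le hk0
  rw [zpow_natCast] at hk
  obtain ⟨j, hj⟩ : ∃ j, i = 2 * j ∨ i = 2 * j + 1 := ⟨i / 2, by omega⟩
  have hmi : M + i < m := by
    rw [hk, ← pow_add] at ham
    exact (pow_lt_pow_iff_right_of_lt_one₀ hp0 hp1).mp ham
  -- the scaled value
  set a' : F := (D.p ^ (2 * j))⁻¹ * a with ha'
  have hpj : D.p ^ (2 * j) ≠ 0 := pow_ne_zero _ D.p0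
  have haa' : a = D.p ^ (2 * j) * a' := by
    rw [ha', ← mul_assoc, mul_inv_cancel₀ hpj, one_mul]
  have ha'n : ‖a'‖ = 1 ∨ ‖a'‖ = ‖D.p‖ := by
    have hpn : ‖D.p‖ ^ (2 * j) ≠ 0 := pow_ne_zero _ hp0.ne'
    rcases hj with hj | hj
    · left
      rw [ha', norm_mul, norm_inv, norm_pow, hk, hj]
      exact inv_mul_cancel₀ hpn
    · right
      rw [ha', norm_mul, norm_inv, norm_pow, hk, hj, pow_succ, ← mul_assoc,
        inv_mul_cancel₀ hpn, one_mul]
  have ha'A : a' ∈ A := by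
    rcases ha'n with h' | h'
    · exact ⟨by rw [h']; exact hp1.le, by rw [h']⟩
    · exact ⟨by rw [h'], by rw [h']; exact hp1.le⟩
  obtain ⟨α, hα⟩ := hm0 (min j J) a' ha'A
  obtain ⟨_, _, hscale, _⟩ := hBAL F D (Fin 3)
  refine TT_kill D.q D.hq _ (α * (((D.q : ℝ) ^ (Fintype.card (Fin 3))) ^ j)⁻¹ *
    (D.q : ℝ) ^ (2 * j)) m ?_
  intro n hn
  have hnj : 2 * j ≤ n := by omega
  have hq0 : (D.q : ℝ) ≠ 0 := by
    have := D.hq
    have h' : D.q ≠ 0 := by omega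
    exact_mod_cast h'
  -- scaling
  have h1 := hscale {z : Fin 3 → F | (∀ i, ‖z i‖ ≤ 1) ∧ ‖qf h z + a‖ ≤ ‖D.p‖ ^ n} j (D.p ^ j)
    (norm_pow _ _)
  have hset : ((fun z : Fin 3 → F => D.p ^ j • z) ⁻¹'
      {z : Fin 3 → F | (∀ i, ‖z i‖ ≤ 1) ∧ ‖qf h z + a‖ ≤ ‖D.p‖ ^ n}) =
      {z | z ∈ K (min j J) ∧ ‖qf h z + a'‖ ≤ ‖D.p‖ ^ (n - 2 * j)} := by
    ext z
    simp only [Set.mem_preimage, Set.mem_ofPred_eq]
    have hq1 : qf h (D.p ^ j • z) + a = D.p ^ (2 * j) * (qf h z + a') := by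
      rw [qf_smul, haa']
      ring
    have hq2 : (‖qf h (D.p ^ j • z) + a‖ ≤ ‖D.p‖ ^ n) ↔
        ‖qf h z + a'‖ ≤ ‖D.p‖ ^ (n - 2 * j) := by
      rw [hq1, norm_mul, norm_pow]
      have : ‖D.p‖ ^ n = ‖D.p‖ ^ (2 * j) * ‖D.p‖ ^ (n - 2 * j) := by
        rw [← pow_add]
        congr 1
        omega
      rw [this]
      exact mul_le_mul_iff_right₀ (pow_pos hp0 _)
    have hq3 : (∀ i, ‖(D.p ^ j • z) i‖ ≤ 1) ↔ z ∈ K j := by
      simp only [hK, Set.mem_ofPred_eq, Pi.smul_apply, smul_eq_mul, norm_mul, norm_pow]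
    rw [hq2, hq3]
    refine and_congr_left (fun hle => ?_)
    by_cases hjJ : j ≤ J
    · rw [min_eq_left hjJ]
    · have hJj : J ≤ j := by omega
      rw [min_eq_right hJj]
      -- the point is small
      have hlt : ‖qf h z + a'‖ < ‖a'‖ := by
        have h3 : ‖D.p‖ ^ (n - 2 * j) ≤ ‖D.p‖ ^ 2 :=
          pow_le_pow_of_le_one hp0.le hp1.le (by omega)
        have h4 : ‖D.p‖ ^ 2 < ‖D.p‖ := by nlinarith
        exact lt_of_le_of_lt (hle.trans h3) (lt_of_lt_of_le h4 ha'A.1)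
      have hqn : ‖qf h z‖ ≤ 1 := by
        have h6 : ‖qf h z‖ ≤ max ‖qf h z + a'‖ ‖a'‖ := by
          calc ‖qf h z‖ = ‖(qf h z + a') + (-a')‖ := by congr 1; ring
            _ ≤ max ‖qf h z + a'‖ ‖-a'‖ := IsUltrametricDist.norm_add_le_max _ _
            _ = max ‖qf h z + a'‖ ‖a'‖ := by rw [norm_neg]
        refine h6.trans (max_le (hlt.le.trans ha'A.2) ha'A.2)
      have hzn : ‖D.p‖ ^ J * ‖z‖ ^ 2 ≤ 1 := by
        have h7 := (hcle z).trans hqn
        have h8 : ‖D.p‖ ^ J * ‖z‖ ^ 2 ≤ c * ‖z‖ ^ 2 :=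
          mul_le_mul_of_nonneg_right hJ.le (by positivity)
        exact h8.trans h7
      have hmemJ : z ∈ K J := by
        intro i
        have h9 : ‖z i‖ ≤ ‖z‖ := norm_le_pi_norm z i
        have hpJ1 : ‖D.p‖ ^ J ≤ 1 := pow_le_one₀ hp0.le hp1.le
        have hpJ0 : 0 < ‖D.p‖ ^ J := pow_pos hp0 _
        have h10 : ‖D.p‖ ^ J * ‖z‖ ≤ 1 := by
          by_contra hgt
          push Not at hgt
          have hz1 : 1 < ‖z‖ := by nlinarith [norm_nonneg z]
          nlinarith [norm_nonneg z]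
        exact (mul_le_mul_of_nonneg_left h9 hpJ0.le).trans h10
      constructor
      · intro _
        exact hmemJ
      · intro _ i
        have h11 := hmemJ i
        have h12 : ‖D.p‖ ^ j ≤ ‖D.p‖ ^ J := pow_le_pow_of_le_one hp0.le hp1.le hJj
        exact (mul_le_mul_of_nonneg_right h12 (norm_nonneg _)).trans h11
  rw [hset, hα (n - 2 * j) (le_trans (hMle _ (min_le_right _ _)) (by omega))] at h1
  unfold V
  have hQ : ((D.q : ℝ) ^ (Fintype.card (Fin 3))) ^ j ≠ 0 := by positivity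
  have h13 : vol D {z : Fin 3 → F | (∀ i, ‖z i‖ ≤ 1) ∧ ‖qf h z + a‖ ≤ ‖D.p‖ ^ n} =
      (((D.q : ℝ) ^ (Fintype.card (Fin 3))) ^ j)⁻¹ * (α * ((D.q : ℝ) ^ (n - 2 * j))⁻¹) := by
    rw [h1, ← mul_assoc, inv_mul_cancel₀ hQ, one_mul]
  rw [h13]
  have h14 : (D.q : ℝ) ^ n = (D.q : ℝ) ^ (2 * j) * (D.q : ℝ) ^ (n - 2 * j) := by
    rw [← pow_add]
    congr 1
    omega
  rw [h14]
  field_simp

end Pool.Agent.H35.N6D
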