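import Pool.Agent.H28.N6.Targets

/-!
Row NF7 of the board N6 (block D): normal form at a simple root of the determinant of a pencil.
-/

set_option autoImplicit false
open MeasureTheory Pool.Agent.H28.N6

namespace Pool.Agent.H35.N6D

section

variable {F : Type} [Field F]

theorem dp_congr {ι : Type} [Fintype ι] [DecidableEq ι] (A B M : Matrix ι ι F) :
    dp (M.transpose * A * M) (M.transpose * B * M) =
      Polynomial.C (M.det) ^ 2 * dp A B := by
  have h : (M.transpose * A * M).map Polynomial.C +
      (Polynomial.X : Polynomial F) • (M.transpose * B * M).map Polynomial.C =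
      (M.map (Polynomial.C : F →+* Polynomial F)).transpose *
        (A.map Polynomial.C + (Polynomial.X : Polynomial F) • B.map Polynomial.C) *
        (M.map (Polynomial.C : F →+* Polynomial F)) := by
    rw [Matrix.map_mul, Matrix.map_mul, Matrix.map_mul, Matrix.map_mul, Matrix.transpose_map,
      Matrix.mul_add, Matrix.add_mul, Matrix.mul_smul, Matrix.smul_mul]
  unfold dp
  rw [h, Matrix.det_mul, Matrix.det_mul, Matrix.det_transpose]
  have hd : (M.map (Polynomial.C : F →+* Polynomial F)).det = Polynomial.C M.det := by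
    rw [RingHom.map_det]
    rfl
  rw [hd]
  ring

theorem qf_mulVec {ι : Type} [Fintype ι] (A M : Matrix ι ι F) (z : ι → F) :
    qf A (M.mulVec z) = qf (M.transpose * A * M) z := by
  unfold qf
  rw [← Matrix.mulVec_mulVec, ← Matrix.mulVec_mulVec, Matrix.dotProduct_mulVec z M.transpose,
    Matrix.vecMul_transpose]

theorem qf_block (n : ℕ) (A : Matrix (Fin (n + 1)) (Fin (n + 1)) F)
    (h1 : ∀ j : Fin n, A 0 j.succ = 0) (h2 : ∀ i : Fin n, A i.succ 0 = 0)
    (z : Fin (n + 1) → F) :
    qf A z = A 0 0 * z 0 ^ 2 + qf (A.submatrix Fin.succ Fin.succ) (Fin.tail z) := by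
  have h3 : ∀ B : Matrix (Fin (n + 1)) (Fin (n + 1)) F, ∀ i,
      B.mulVec z i = B i 0 * z 0 + ∑ j : Fin n, B i j.succ * z j.succ := by
    intro B i
    unfold Matrix.mulVec dotProduct
    rw [Fin.sum_univ_succ]
  unfold qf dotProduct
  rw [Fin.sum_univ_succ, h3]
  have h4 : ∑ j : Fin n, A 0 j.succ * z j.succ = 0 := by
    refine Finset.sum_eq_zero (fun j _ => ?_)
    rw [h1, zero_mul]
  rw [h4]
  congr 1
  · ring
  · refine Finset.sum_congr rfl (fun i _ => ?_)
    rw [h3, h2, zero_mul, zero_add]
    rfl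

/-- The entries of `Mᵀ A M` in the first column. -/
theorem congr_col (n : ℕ) (A M : Matrix (Fin (n + 1)) (Fin (n + 1)) F) (v : Fin (n + 1) → F)
    (hM : ∀ i, M i 0 = v i) (i : Fin (n + 1)) :
    (M.transpose * A * M) i 0 = dotProduct (fun l => M l i) (A.mulVec v) := by
  have hv : (fun l => M l 0) = v := funext hM
  rw [Matrix.mul_assoc, Matrix.mul_apply_eq_vecMul]
  have : ∀ (B : Matrix (Fin (n + 1)) (Fin (n + 1)) F) (w : Fin (n + 1) → F),
      Matrix.vecMul w B 0 = dotProduct w (fun l => B l 0) := fun B w => rfl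
  rw [this]
  have h2 : (fun l => (A * M) l 0) = A.mulVec v := by
    funext l
    rw [Matrix.mul_apply]
    unfold Matrix.mulVec dotProduct
    exact Finset.sum_congr rfl (fun j _ => by rw [hM])
  rw [h2]
  rfl

/-- The main computation. -/
theorem key (hDER : T_DER) (R S M : Matrix (Fin 7) (Fin 7) F) (hR : R.transpose = R)
    (x : Fin 7 → F) (hx : R.mulVec x = 0) (hM : ∀ i, M i 0 = x i) (hdet : M.det ≠ 0)
    (hd : (dp R S).derivative.eval 0 ≠ 0) :
    (∀ i, (M.transpose * R * M) i 0 = 0) ∧ (∀ i, (M.transpose * R * M) 0 i = 0) ∧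
      qf S x ≠ 0 ∧ ((M.transpose * R * M).submatrix Fin.succ Fin.succ).det ≠ 0 := by
  have hc : ∀ i, (M.transpose * R * M) i 0 = 0 := by
    intro i
    rw [congr_col 6 R M x hM i, hx, dotProduct_zero]
  have hsym : (M.transpose * R * M).transpose = M.transpose * R * M := by
    rw [Matrix.transpose_mul, Matrix.transpose_mul, Matrix.transpose_transpose, hR,
      Matrix.mul_assoc]
  have hr : ∀ i, (M.transpose * R * M) 0 i = 0 := by
    intro i
    rw [← hsym, Matrix.transpose_apply]
    exact hc i
  obtain ⟨_, h2⟩ := hDER F 6 (M.transpose * R * M) (M.transpose * S * M) hr hc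
  rw [dp_congr, ← map_pow, Polynomial.derivative_C_mul, Polynomial.eval_C_mul] at h2
  have hS : (M.transpose * S * M) 0 0 = qf S x := by
    rw [congr_col 6 S M x hM 0]
    unfold qf
    congr 1
    exact funext hM
  rw [hS] at h2
  have hne : qf S x * ((M.transpose * R * M).submatrix Fin.succ Fin.succ).det ≠ 0 := by
    rw [← h2]
    exact mul_ne_zero (pow_ne_zero _ hdet) hd
  exact ⟨hc, hr, left_ne_zero_of_mul hne, right_ne_zero_of_mul hne⟩

end

theorem pf_NF7 (hDER : T_DER) (hSPL : T_SPL) : T_NF7 := by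
  intro F _ _ R S hR hS h0 hd
  have hdetR : R.det = 0 := by
    have h1 : (dp R S).eval 0 = R.det := by
      unfold dp
      rw [← Polynomial.coe_evalRingHom, RingHom.map_det]
      congr 1
      ext i j
      simp [Matrix.map_apply, Matrix.add_apply]
    rw [← h1]
    exact h0
  obtain ⟨x, hx0, hx⟩ := Matrix.exists_mulVec_eq_zero_iff.mpr hdetR
  -- a first invertible matrix with first column `x`
  obtain ⟨i0, hi0⟩ : ∃ i, x i ≠ 0 := by
    by_contra hall
    push Not at hall
    exact hx0 (funext hall)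
  have hq0 : qf (Matrix.diagonal (Pi.single i0 (1 : F))) x ≠ 0 := by
    unfold qf dotProduct
    rw [Finset.sum_eq_single i0]
    · rw [Matrix.mulVec_diagonal, Pi.single_eq_same, one_mul]
      exact mul_ne_zero hi0 hi0
    · intro i _ hne
      rw [Matrix.mulVec_diagonal, Pi.single_eq_of_ne hne, zero_mul, mul_zero]
    · intro h
      exact absurd (Finset.mem_univ _) h
  obtain ⟨M0, hM0d, hM0c, _⟩ := hSPL F 6 _ x hq0
  obtain ⟨_, _, hs, _⟩ := key hDER R S M0 hR x hx hM0c hM0d hd
  obtain ⟨M, hMd, hMc, hMo⟩ := hSPL F 6 S x hs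
  obtain ⟨hc, hr, _, hR6⟩ := key hDER R S M hR x hx hMc hMd hd
  have hsymR : (M.transpose * R * M).transpose = M.transpose * R * M := by
    rw [Matrix.transpose_mul, Matrix.transpose_mul, Matrix.transpose_transpose, hR,
      Matrix.mul_assoc]
  have hsymS : (M.transpose * S * M).transpose = M.transpose * S * M := by
    rw [Matrix.transpose_mul, Matrix.transpose_mul, Matrix.transpose_transpose, hS,
      Matrix.mul_assoc]
  have hS00 : (M.transpose * S * M) 0 0 = qf S x := by
    rw [congr_col 6 S M x hMc 0]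
    unfold qf
    congr 1
    exact funext hMc
  have hScol : ∀ i : Fin 6, (M.transpose * S * M) i.succ 0 = 0 := by
    intro i
    rw [congr_col 6 S M x hMc i.succ, Matrix.dotProduct_mulVec, dotProduct_comm,
      ← Matrix.mulVec_transpose, hS]
    exact hMo i
  have hSrow : ∀ i : Fin 6, (M.transpose * S * M) 0 i.succ = 0 := by
    intro i
    rw [← hsymS, Matrix.transpose_apply]
    exact hScol i
  refine ⟨M, (M.transpose * R * M).submatrix Fin.succ Fin.succ,
    (M.transpose * S * M).submatrix Fin.succ Fin.succ, qf S x, hMd, ?_, ?_, hR6, hs, ?_⟩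
  · rw [Matrix.transpose_submatrix, hsymR]
  · rw [Matrix.transpose_submatrix, hsymS]
  · intro z
    constructor
    · rw [qf_mulVec, qf_block 6 _ (fun j => hr j.succ) (fun i => hc i.succ), hc 0, zero_mul,
        zero_add]
    · rw [qf_mulVec, qf_block 6 _ hSrow hScol, hS00]

end Pool.Agent.H35.N6D
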